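import Mathlib
import Pool.Agent.CC49.W

set_option autoImplicit false

/-!
MP_d14c4c_al.  Commutator width and normal subgroups generated by pairwise commuting subgroups
which are permuted by conjugation.  The proof is in `Pool.Agent.CC49.W`.
-/

namespace Pool.Agent.Results.MP_d14c4c_al.CommutingConjugates

open scoped commutatorElement

/-- `g` is a product of at most `r` commutators of elements of the subgroup `H`. -/
def ProdComm {E : Type*} [Group E] (H : Subgroup E) (r : ℕ) (g : E) : Prop :=
  ∃ l : List (E × E), l.length ≤ r ∧ (∀ p ∈ l, p.1 ∈ H ∧ p.2 ∈ H) ∧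
    g = (l.map fun p => ⁅p.1, p.2⁆).prod

/-- **Theorem.** Let `E` be a group, let `L x` (`x ∈ X`) be subgroups of `E` which commute
elementwise for different `x` and which are permuted by conjugation, according to an action of `E`
on `X`, and let `N` be the subgroup generated by all `L x`.  Let `S` be a finite set such that
`S` and `N` generate `E`.  Suppose that for every `x` with a finite orbit every element
of the derived subgroup of `L x` is a product of at most `c` commutators of `L x` (nothing is
assumed when the orbit is infinite).
If every element of the derived subgroup of `E` is, modulo `[N, E]`, a product of at most `m`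
commutators, then every element of the derived subgroup of `E` is a product of at most
`m + |S| + c + 1` commutators. -/
theorem result {E X : Type*} [Group E] [MulAction E X] (S : Finset E) (L : X → Subgroup E)
    (hS : Subgroup.closure (S : Set E) ⊔ (⨆ x, L x) = ⊤)
    (hconj : ∀ (g : E) (x : X) (a : E), a ∈ L x → g * a * g⁻¹ ∈ L (g • x))
    (hcomm : ∀ x y : X, x ≠ y → ∀ a ∈ L x, ∀ b ∈ L y, a * b = b * a)
    (c : ℕ)
    (hc : ∀ x : X, (MulAction.orbit E x).Finite → ∀ g ∈ ⁅L x, L x⁆, ProdComm (L x) c g)
    (m : ℕ)
    (hm : ∀ g ∈ commutator E, ∃ y : E, ProdComm ⊤ m y ∧ y⁻¹ * g ∈ ⁅⨆ x, L x, (⊤ : Subgroup E)⁆) :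
    ∀ g ∈ commutator E, ProdComm ⊤ (m + S.card + c + 1) g :=
  Pool.Agent.CC49.main S L hS hconj hcomm c hc m hm

end Pool.Agent.Results.MP_d14c4c_al.CommutingConjugates
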