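import Mathlib
import Pool.Agent.DF71.Final

set_option autoImplicit false

/-!
MP_d14c4c_al.  Full groups of fragmentations of minimal dihedral actions (among them Nekrashevych's
finitely generated simple groups of intermediate growth) have commutator width at most six.

The definitions `InFull` (full group), `ThreeCycle`, `AltFull` (alternating full group),
`PiecewiseDihedral` and `IsFragmentation` are in `Pool.Agent.DF71.FDefs`.
-/

namespace Pool.Agent.Results.MP_d14c4c_al.DihedralFull

open scoped commutatorElement
open Pool.Agent.DF71

universe u

/-- Let `a`, `b` be involutive homeomorphisms of an infinite compact totally disconnected Hausdorff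
space `X` (for example a Cantor set) such that the group generated by `a` and `b` acts minimally
(all orbits are dense).  Let `G` be a group of homeomorphisms of `X` which is piecewise dihedral with
respect to `a`, `b`, for example the group generated by a fragmentation of `a` and a fragmentation
of `b`.  Let `Γ` be any group between the alternating full group `A(G)` and the full group `F(G)`.
Then every element of the derived subgroup of `Γ` is a product of at most six commutators of
elements of `Γ`. -/
theorem result {X : Type u} [TopologicalSpace X] [CompactSpace X] [T2Space X]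
    [TotallyDisconnectedSpace X] [Infinite X] (a b : X ≃ₜ X) (ha : ∀ x, a (a x) = x)
    (hb : ∀ x, b (b x) = x)
    (hmin : ∀ x, Dense {y | ∃ g ∈ Subgroup.closure {a, b}, g x = y})
    (G : Subgroup (X ≃ₜ X))
    (hG : PiecewiseDihedral a b G ∨
      ∃ A B : Subgroup (X ≃ₜ X), IsFragmentation a A ∧ IsFragmentation b B ∧ G = A ⊔ B)
    (Γ : Subgroup (X ≃ₜ X)) (hA : AltFull G ≤ Γ) (hF : ∀ γ ∈ Γ, InFull G γ)
    (g : Γ) (hg : g ∈ commutator Γ) :
    ∃ l : List (Γ × Γ), l.length ≤ 6 ∧ g = (l.map fun p => ⁅p.1, p.2⁆).prod := by
  refine final a b ha hb hmin G ?_ Γ hA hF g hg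
  rcases hG with h | ⟨A, B, hA', hB', rfl⟩
  · exact h
  · exact piecewise_of_fragmentation a b A B hA' hB'

end Pool.Agent.Results.MP_d14c4c_al.DihedralFull
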