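import Mathlib
import Pool.Agent.CW71.GMain

set_option autoImplicit false

/-!
MP_d14c4c_al.  The Grigorchuk groups `G_ω`, for all sequences `ω` over three letters, have
uniformly bounded commutator width.

The vertices of the binary tree are the finite sequences (lists) of booleans.  The permutations
`aP` and `eP ω i` of the set of vertices are defined in `Pool.Agent.CW71.Rec`.
-/

namespace Pool.Agent.Results.MP_d14c4c_al.GrigorchukFamily

open scoped commutatorElement
open Pool.Agent.CW71

/-- The Grigorchuk group `G_ω`, generated by `a` and by the three involutions `e_0, e_1, e_2`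
(usually written `d_ω, c_ω, b_ω`). -/
def GrigorchukGroup (ω : ℕ → Fin 3) : Subgroup (Equiv.Perm (List Bool)) :=
  Subgroup.closure {aP, eP ω 0, eP ω 1, eP ω 2}

lemma aP_mem (ω : ℕ → Fin 3) : aP ∈ GrigorchukGroup ω :=
  Subgroup.subset_closure (by simp)

lemma eP_mem (ω : ℕ → Fin 3) (i : Fin 3) : eP ω i ∈ GrigorchukGroup ω := by
  apply Subgroup.subset_closure
  fin_cases i <;> simp

lemma pi_mem (ω : ℕ → Fin 3) (g : F) : pi ω g ∈ GrigorchukGroup ω := by
  refine F_ind_left (fun g => pi ω g ∈ GrigorchukGroup ω) ?_ ?_ ?_ g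
  · simpa using (GrigorchukGroup ω).one_mem
  · intro g hg
    rw [map_mul, pi_a]; exact (GrigorchukGroup ω).mul_mem (aP_mem ω) hg
  · intro i g hg
    rw [map_mul, pi_e]; exact (GrigorchukGroup ω).mul_mem (eP_mem ω i) hg

/-- the natural map from `F` to the Grigorchuk group -/
def rho (ω : ℕ → Fin 3) : F →* GrigorchukGroup ω := (pi ω).codRestrict _ (pi_mem ω)

lemma rho_coe (ω : ℕ → Fin 3) (g : F) : (rho ω g : Equiv.Perm (List Bool)) = pi ω g := rfl

lemma rho_surj (ω : ℕ → Fin 3) : Function.Surjective (rho ω) := by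
  rintro ⟨g, hg⟩
  have h : GrigorchukGroup ω ≤ (pi ω).range := by
    unfold GrigorchukGroup
    rw [Subgroup.closure_le]
    intro x hx
    simp only [Set.mem_insert_iff, Set.mem_singleton_iff] at hx
    rcases hx with rfl | rfl | rfl | rfl
    · exact ⟨ga, pi_a ω⟩
    · exact ⟨ge 0, pi_e ω 0⟩
    · exact ⟨ge 1, pi_e ω 1⟩
    · exact ⟨ge 2, pi_e ω 2⟩
  obtain ⟨y, hy⟩ := h hg
  exact ⟨y, Subtype.ext hy⟩

lemma CK_list {G H : Type*} [Group G] [Group H] (f : G →* H) {K : Subgroup G} {n : ℕ} {x : G}
    (hx : x ∈ CK K n) :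
    ∃ l : List (H × H), l.length ≤ n ∧ f x = (l.map fun p => ⁅p.1, p.2⁆).prod := by
  induction n generalizing x with
  | zero =>
    have : x = 1 := hx
    exact ⟨[], by simp, by simp [this]⟩
  | succ n ih =>
    obtain ⟨p, _, q, _, y, hy, rfl⟩ := hx
    obtain ⟨l, hl, e⟩ := ih hy
    exact ⟨(f p, f q) :: l, by simpa using hl, by simp [e, map_commutatorElement]⟩

/-- There is a number `N` such that for every sequence `ω` over three letters every element of
the derived subgroup of the Grigorchuk group `G_ω` is a product of at most `N` commutators. -/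
theorem result : ∃ N : ℕ, ∀ ω : ℕ → Fin 3, ∀ g ∈ commutator (GrigorchukGroup ω),
    ∃ l : List (GrigorchukGroup ω × GrigorchukGroup ω),
      l.length ≤ N ∧ g = (l.map fun p => ⁅p.1, p.2⁆).prod := by
  refine ⟨2412, fun ω g hg => ?_⟩
  have h1 : Subgroup.map (rho ω) (commutator F) = commutator (GrigorchukGroup ω) := by
    rw [commutator_def, commutator_def, Subgroup.map_commutator,
      Subgroup.map_top_of_surjective _ (rho_surj ω)]
  rw [← h1] at hg
  obtain ⟨y, hy, rfl⟩ := hg
  obtain ⟨z, hz, e⟩ := main_F ω hy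
  have h2 : rho ω y = rho ω z := Subtype.ext e
  rw [h2]
  exact CK_list (rho ω) hz

end Pool.Agent.Results.MP_d14c4c_al.GrigorchukFamily
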