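import Mathlib
import Pool.Agent.MZ71.Main

set_option autoImplicit false

/-!
MP_d14c4c_al.  Regular branch groups with hyperfinite level actions and measure-zero singular
points, and all groups commensurable with them, have finite commutator width.

The group acts on the set `List X` of the words over a finite alphabet `X` (the vertices of a
rooted regular tree).  The definitions `SelfSimilar`, `IsSection`, `Contracting`, `LevelTransitive`,
`ContainsPower` are in `Pool.Agent.CB71.Tree`; `HyperfiniteLevels`, `MeasureZeroSingular` in
`Pool.Agent.MZ71.Defs`; `SubexponentialOrbits` in `Pool.Agent.MZ71.HForb`; `FolnerAmenable`,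
`SubexponentialGrowth` in `Pool.Agent.RB61.FolSub`; `FiniteState` in `Pool.Agent.RB61.Final`.

The hypothesis on the level actions holds for amenable groups, for groups of subexponential growth,
for groups all of whose orbits on the words have (uniformly) subexponential growth and for
contracting groups; the hypothesis on the singular points holds for groups generated by finite
automata and for contracting groups.  No growth, no contraction and no finite automaton is needed in
general.
-/

namespace Pool.Agent.Results.MP_d14c4c_al.MeasureZeroBranch

open scoped commutatorElement
open Pool.Agent.CB71 Pool.Agent.RB61 Pool.Agent.MZ71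

/-- Let `X` be a finite alphabet with at least two letters and let `G` be a finitely generated,
self-similar, level-transitive group of permutations of the words over `X` which is regular branch
over a subgroup `K` of finite index.  Assume that the actions of `G` on the levels are hyperfinite
(for example that `G` is amenable, or of subexponential growth, or has subexponentially growing
orbits, or is contracting) and that the singular points have measure zero (for example that every
element has finitely many sections, or that `G` is contracting).  Let `H` be a subgroup of finite
index in `G` and let `Γ` be a group with a subgroup `Γ₁` of finite index isomorphic to `H` (for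
example `Γ = G`).  Then there is a number `N` such that every element of the derived subgroup of `Γ`
is a product of at most `N` commutators. -/
theorem result (X : Type) [Finite X] [Nontrivial X] (G K : Subgroup (Equiv.Perm (List X)))
    (hfg : G.FG) (hss : SelfSimilar G) (ht : LevelTransitive G)
    (hKG : K ≤ G) (hKi : (K.subgroupOf G).FiniteIndex) (hKp : ContainsPower K)
    (hHF : HyperfiniteLevels G ∨ SubexponentialGrowth G ∨ FolnerAmenable G ∨
      SubexponentialOrbits G ∨ Contracting G)
    (hMZ : MeasureZeroSingular G ∨ FiniteState G ∨ Contracting G)
    (H : Subgroup (Equiv.Perm (List X))) (hHG : H ≤ G) (hHi : (H.subgroupOf G).FiniteIndex)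
    (Γ : Type) [Group Γ] (Γ₁ : Subgroup Γ) (hΓ₁ : Γ₁.FiniteIndex) (e : Γ₁ ≃* H) :
    ∃ N : ℕ, ∀ g ∈ commutator Γ, ∃ l : List (Γ × Γ),
      l.length ≤ N ∧ g = (l.map fun p => ⁅p.1, p.2⁆).prod := by
  refine main_disj hfg hss ht hKG hKi hKp ?_ hMZ hHG hHi Γ₁ hΓ₁ e
  rcases hHF with h | h | h | h | h
  · exact Or.inl h
  · exact Or.inr (Or.inr (Or.inl h))
  · exact Or.inr (Or.inl h)
  · exact Or.inr (Or.inr (Or.inr (Or.inl h)))
  · exact Or.inr (Or.inr (Or.inr (Or.inr h)))

end Pool.Agent.Results.MP_d14c4c_al.MeasureZeroBranch
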